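import Mathlib

/-!
# Conjugates of a finite subgroup modulo a small normal subgroup
-/

set_option autoImplicit false

namespace Run7.h334.CQ

open Finset

/-- The subgroup `A` is commutative, and for every `n ≥ 1` the group `A / A ^ n` and the group of the
elements of `A` of order dividing `n` are finite. Examples are finitely generated commutative groups,
the groups of the complex points of abelian varieties, and the extensions of such groups. -/
structure Small {G : Type*} [Group G] (A : Subgroup G) : Prop where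
  comm : ∀ a ∈ A, ∀ b ∈ A, a * b = b * a
  quot : ∀ n : ℕ, 0 < n → ∃ R : Set G, R.Finite ∧ R ⊆ A ∧ ∀ a ∈ A, ∃ r ∈ R, ∃ b ∈ A, a = r * b ^ n
  tors : ∀ n : ℕ, 0 < n → {a | a ∈ A ∧ a ^ n = 1}.Finite

/-- For every finite subgroup `H` of `G` there are, up to conjugation by elements of `K`, only
finitely many homomorphisms `h ↦ g h g⁻¹` from `H` to `G` which are the identity modulo `K`. -/
def FinLifts {G : Type*} [Group G] (K : Subgroup G) : Prop :=
  ∀ H : Subgroup G, Finite H → ∃ Φ : Set (H → G), Φ.Finite ∧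
    ∀ g : G, (∀ h : H, g * h * g⁻¹ * (h : G)⁻¹ ∈ K) →
      ∃ b ∈ K, (fun h : H => b * g * h * (b * g)⁻¹) ∈ Φ

/-- Cocycles with values in a commutative group with finite torsion and finite quotients. -/
theorem cocycle {A : Type*} [CommGroup A] {H : Type*} [Group H] [Fintype H] {R : Set A}
    (hR : R.Finite) (hq : ∀ a : A, ∃ r ∈ R, ∃ b, a = r * b ^ Fintype.card H)
    (ht : {a : A | a ^ Fintype.card H = 1}.Finite) (σ : H → (A ≃* A)) :
    ∃ T : Set (H → A), T.Finite ∧ ∀ α : H → A, (∀ x y, α (x * y) = α x * σ x (α y)) →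
      ∃ b : A, (fun x => b⁻¹ * α x * σ x b) ∈ T := by
  classical
  have hroot : ∀ d : A, {c : A | c ^ Fintype.card H = d}.Finite := by
    intro d
    by_cases hd : ∃ c₀ : A, c₀ ^ Fintype.card H = d
    · obtain ⟨c₀, hc₀⟩ := hd
      refine (ht.image fun t => c₀ * t).subset ?_
      intro c hc
      have hc' : c ^ Fintype.card H = d := hc
      refine ⟨c₀⁻¹ * c, ?_, mul_inv_cancel_left c₀ c⟩
      show (c₀⁻¹ * c) ^ Fintype.card H = 1
      rw [mul_pow, inv_pow, hc₀, hc', inv_mul_cancel]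
    · convert Set.finite_empty
      rw [Set.eq_empty_iff_forall_notMem]
      intro c hc
      exact hd ⟨c, hc⟩
  refine ⟨{β | ∀ x, β x ∈ ⋃ r ∈ R, {c : A | c ^ Fintype.card H = r * (σ x r)⁻¹}},
    Set.Finite.pi' fun x => hR.biUnion fun r _ => hroot _, ?_⟩
  intro α hα
  set P := ∏ y, α y with hP
  obtain ⟨r, hr, b, hb⟩ := hq P
  refine ⟨b, fun x => ?_⟩
  simp only [Set.mem_iUnion]
  refine ⟨r, hr, ?_⟩
  show (b⁻¹ * α x * σ x b) ^ Fintype.card H = r * (σ x r)⁻¹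
  have h1 : P = α x ^ Fintype.card H * σ x P := by
    calc P = ∏ y, α (x * y) := (Fintype.prod_equiv (Equiv.mulLeft x) _ _ fun y => rfl).symm
      _ = ∏ y, (α x * σ x (α y)) := Finset.prod_congr rfl fun y _ => hα x y
      _ = α x ^ Fintype.card H * σ x P := by
        rw [Finset.prod_mul_distrib, Finset.prod_const, Finset.card_univ, hP, map_prod]
  have h2 : α x ^ Fintype.card H = P * (σ x P)⁻¹ := by
    rw [eq_mul_inv_iff_mul_eq]
    exact h1.symm
  rw [mul_pow, mul_pow, h2, hb, map_mul, map_pow, inv_pow]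
  have e : ∀ u v w z : A, u⁻¹ * (v * u * (w * z)⁻¹) * z = v * w⁻¹ := by
    intro u v w z
    rw [mul_inv]
    calc u⁻¹ * (v * u * (w⁻¹ * z⁻¹)) * z = (u⁻¹ * u) * (v * w⁻¹) * (z⁻¹ * z) := by
          simp only [mul_comm, mul_left_comm, mul_assoc]
      _ = v * w⁻¹ := by rw [inv_mul_cancel, inv_mul_cancel, one_mul, mul_one]
  exact e _ _ _ _

/-- The property `FinLifts` for a group with a small subgroup of finite index. -/
theorem lifts {G : Type*} [Group G] {K A : Subgroup G} (hn : A.Normal) (hA : Small A) (hAK : A ≤ K)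
    (hKA : ∃ T : Set G, T.Finite ∧ ∀ k ∈ K, ∃ t ∈ T, ∃ a ∈ A, k = t * a) : FinLifts K := by
  classical
  intro H hH
  have := Fintype.ofFinite H
  obtain ⟨T, hT, hTK⟩ := hKA
  let _ : CommGroup A :=
    { (inferInstance : Group A) with
      mul_comm := fun a b => Subtype.ext (hA.comm a.1 a.2 b.1 b.2) }
  obtain ⟨R, hR, hRA, hq⟩ := hA.quot (Fintype.card H) Fintype.card_pos
  have hR' : ((fun a : A => (a : G)) ⁻¹' R).Finite := hR.preimage Subtype.val_injective.injOn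
  have hq' : ∀ a : A, ∃ r ∈ (fun a : A => (a : G)) ⁻¹' R, ∃ b, a = r * b ^ Fintype.card H := by
    intro a
    obtain ⟨r, hr, b, hb, h⟩ := hq a a.2
    exact ⟨⟨r, hRA hr⟩, hr, ⟨b, hb⟩, Subtype.ext h⟩
  have ht' : {a : A | a ^ Fintype.card H = 1}.Finite := by
    refine ((hA.tors (Fintype.card H) Fintype.card_pos).preimage
      (f := fun a : A => (a : G)) Subtype.val_injective.injOn).subset ?_
    intro a ha
    have h1 : a ^ Fintype.card H = 1 := ha
    refine ⟨a.2, ?_⟩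
    have h2 := congrArg (fun a : A => (a : G)) h1
    simpa using h2
  -- the reductions modulo `A`
  let Q : Set (H → G ⧸ A) := {q | ∀ h : H, q h ∈ (fun t : G => (t : G ⧸ A) * ((h : G) : G ⧸ A)) '' T}
  have hQ : Q.Finite := Set.Finite.pi' fun h => hT.image _
  let S : Set G := {g | ∀ h : H, g * h * g⁻¹ * (h : G)⁻¹ ∈ K}
  have hS : ∀ g ∈ S, (fun h : H => ((g * h * g⁻¹ : G) : G ⧸ A)) ∈ Q := by
    intro g hg h
    obtain ⟨t, ht, a, ha, h1⟩ := hTK _ (hg h)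
    refine ⟨t, ht, ?_⟩
    have h2 : g * h * g⁻¹ = t * a * h := by
      rw [← h1, inv_mul_cancel_right]
    show ((t : G) : G ⧸ A) * ((h : G) : G ⧸ A) = ((g * h * g⁻¹ : G) : G ⧸ A)
    rw [h2, QuotientGroup.mk_mul, QuotientGroup.mk_mul, (QuotientGroup.eq_one_iff a).2 ha, mul_one]
  -- the finite sets for the reductions
  have key : ∀ q ∈ Q, ∃ Φ : Set (H → G), Φ.Finite ∧ ∀ g ∈ S,
      (fun h : H => ((g * h * g⁻¹ : G) : G ⧸ A)) = q →
      ∃ b ∈ A, (fun h : H => b * g * h * (b * g)⁻¹) ∈ Φ := by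
    intro q _
    by_cases hex : ∃ g₀ ∈ S, (fun h : H => ((g₀ * h * g₀⁻¹ : G) : G ⧸ A)) = q
    swap
    · exact ⟨∅, Set.finite_empty, fun g hg h => (hex ⟨g, hg, h⟩).elim⟩
    obtain ⟨g₀, -, h₀⟩ := hex
    obtain ⟨T', hT', hT''⟩ := cocycle (A := A) (H := H) hR' hq' ht'
      (fun h : H => MulAut.conjNormal (g₀ * h * g₀⁻¹))
    refine ⟨(fun (τ : H → A) (h : H) => (τ h : G) * (g₀ * h * g₀⁻¹)) '' T', hT'.image _, ?_⟩
    intro g _ hgq
    have hmem : ∀ h : H, g * h * g⁻¹ * (g₀ * h * g₀⁻¹)⁻¹ ∈ A := by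
      intro h
      have h1 : ((g * h * g⁻¹ : G) : G ⧸ A) = ((g₀ * h * g₀⁻¹ : G) : G ⧸ A) :=
        congrFun (hgq.trans h₀.symm) h
      have h2 : (((g * h * g⁻¹ * (g₀ * h * g₀⁻¹)⁻¹ : G)) : G ⧸ A) = 1 := by
        rw [QuotientGroup.mk_mul, QuotientGroup.mk_inv, h1, mul_inv_cancel]
      exact (QuotientGroup.eq_one_iff _).1 h2
    obtain ⟨b, hb⟩ := hT'' (fun h => ⟨_, hmem h⟩) (by
      intro x y
      apply Subtype.ext
      show g * ((x : G) * (y : G)) * g⁻¹ * (g₀ * ((x : G) * (y : G)) * g₀⁻¹)⁻¹ =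
        (g * (x : G) * g⁻¹ * (g₀ * (x : G) * g₀⁻¹)⁻¹) * ((g₀ * (x : G) * g₀⁻¹) *
          (g * (y : G) * g⁻¹ * (g₀ * (y : G) * g₀⁻¹)⁻¹) * (g₀ * (x : G) * g₀⁻¹)⁻¹)
      group)
    refine ⟨(b⁻¹ : A), (b⁻¹ : A).2, _, hb, ?_⟩
    funext h
    show ((b⁻¹ : A) : G) * (g * h * g⁻¹ * (g₀ * h * g₀⁻¹)⁻¹) *
      ((g₀ * h * g₀⁻¹) * (b : G) * (g₀ * h * g₀⁻¹)⁻¹) * (g₀ * h * g₀⁻¹) =
      ((b⁻¹ : A) : G) * g * h * (((b⁻¹ : A) : G) * g)⁻¹
    have e : ((b⁻¹ : A) : G) = (b : G)⁻¹ := rfl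
    rw [e]
    group
  choose! Φ hΦ hΦ' using key
  refine ⟨⋃ q ∈ Q, Φ q, hQ.biUnion hΦ, ?_⟩
  intro g hg
  obtain ⟨b, hb, h⟩ := hΦ' _ (hS g hg) g hg rfl
  refine ⟨b, hAK hb, ?_⟩
  simp only [Set.mem_iUnion]
  exact ⟨_, hS g hg, h⟩

end Run7.h334.CQ
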