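import Pool.Agent.Y167.ConeDef
import Pool.Agent.Run7.h334.CQ.Lift

/-!
# The numerical data of a variety with a cone of divisors: definitions
-/

set_option autoImplicit false

namespace Run7.h334.CQ

open Pool.Agent.Y167 (cone)

/-- The map `f` is linear and bijective. -/
def IsLinIso {M N : Type*} [AddCommGroup M] [Module ℝ M] [AddCommGroup N] [Module ℝ N]
    (f : M → N) : Prop := ∃ l : M ≃ₗ[ℝ] N, ∀ x, l x = f x

section

variable {N : Type*} [NormedAddCommGroup N] [NormedSpace ℝ N]
  {M : Type*} [NormedAddCommGroup M] [NormedSpace ℝ M]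

/-- The group `L` is generated by a basis of the real vector space `N`. -/
def IsLattice (L : AddSubgroup N) : Prop :=
  ∃ (ι : Type) (_ : Fintype ι) (b : Module.Basis ι ℝ N), ∀ x, x ∈ L ↔ ∀ i, ∃ n : ℤ, b.repr x i = n

/-- The set `A` is a convex cone. -/
def IsCone (A : Set N) : Prop :=
  (0 : N) ∈ A ∧ (∀ x ∈ A, ∀ y ∈ A, x + y ∈ A) ∧ ∀ t : ℝ, 0 ≤ t → ∀ x ∈ A, t • x ∈ A

/-- There is a linear form which is integral on `L` and positive on `C`, except at `0`. -/
def HasDegree (L : AddSubgroup N) (C : Set N) : Prop :=
  ∃ ξ : N →ₗ[ℝ] ℝ, (∀ x ∈ L, ∃ n : ℤ, ξ x = n) ∧ ∀ x ∈ C, x ≠ 0 → 0 < ξ x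

/-- Known properties of the group `L` of the classes of line bundles, of the nef cone or the closed
movable cone `C` and of the effective cone `E` in the space `N` of the numerical classes of divisors
of a projective variety: `C` is closed, there is an ample class, ample classes are in the interior
of `C ∩ E`, and the degree with respect to an ample class is positive on `C`, except at `0`. -/
structure IsConePair (L : AddSubgroup N) (C E : Set N) : Prop where
  lattice : IsLattice L
  closed : IsClosed C
  cone_C : IsCone C
  cone_E : IsCone E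
  ample : ∃ y ∈ L, y ∈ interior (C ∩ E)
  degree : HasDegree L C

/-- There is a cone `Π`, generated by finitely many elements of `L`, which is a fundamental domain
for the maps `𝒢` on `A`: the cone `A` is the union of the cones `g Π`, and the interiors of `Π` and
`g Π` are disjoint unless `g = id`. -/
def HasFundDomain (L : AddSubgroup N) (A : Set N) (𝒢 : Set (N → N)) : Prop :=
  ∃ S : Finset N, (∀ a ∈ S, a ∈ L) ∧ A = {x | ∃ g ∈ 𝒢, ∃ y ∈ cone S, x = g y} ∧
    ∀ g ∈ 𝒢, g ≠ id → interior (cone S) ∩ interior (g '' cone S) = ∅

/-- The map `f` is linear. -/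
def IsLin (f : M → N) : Prop := ∃ l : M →ₗ[ℝ] N, ∀ x, l x = f x

/-- The maps `act g` are a linear action of the group `Γ` on `N`. -/
def IsLinAction {Γ : Type*} [Group Γ] (act : Γ → N → N) : Prop :=
  ∃ ρ : Γ →* (N ≃ₗ[ℝ] N), ∀ g x, ρ g x = act g x

end

/-- The set `K` contains a normal subgroup `A` such that `A` is commutative, `A / A ^ n` and the
`n`-torsion of `A` are finite for all `n ≥ 1`, and finitely many cosets of `A` cover `K`. -/
def SmallKernel {Γ : Type*} [Group Γ] (K : Set Γ) : Prop :=
  ∃ A : Subgroup Γ, A.Normal ∧ Small A ∧ (∀ a ∈ A, a ∈ K) ∧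
    ∃ T : Set Γ, T.Finite ∧ ∀ k ∈ K, ∃ t ∈ T, ∃ a ∈ A, k = t * a

/-- A projective variety `X`, given by the space `N` of the numerical classes of divisors, the group
`L` of the classes of line bundles, a closed cone `C` (the nef cone, or the closed movable cone), the
effective cone `E`, and a group `G` (the automorphisms, or the birational self-maps, or the
pseudo-automorphisms) which acts on `N`. -/
structure Variety where
  N : Type
  [ng : NormedAddCommGroup N]
  [ns : NormedSpace ℝ N]
  [fd : FiniteDimensional ℝ N]
  L : AddSubgroup N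
  C : Set N
  E : Set N
  G : Type
  [gp : Group G]
  act : G → N → N

attribute [instance] Variety.ng Variety.ns Variety.fd Variety.gp

namespace Variety

/-- The cone conjecture for `X`: the action of `G` on `C ∩ E` has a rational polyhedral fundamental
domain. -/
def ConeConj (X : Variety) : Prop := HasFundDomain X.L (X.C ∩ X.E) (Set.range X.act)

/-- The group `G` maps `L`, `C` and `E` into themselves. -/
def Preserves (X : Variety) : Prop :=
  ∀ g, (∀ x ∈ X.L, X.act g x ∈ X.L) ∧ (∀ x ∈ X.C, X.act g x ∈ X.C) ∧ ∀ x ∈ X.E, X.act g x ∈ X.E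

/-- Known properties of the data of a projective variety. -/
structure IsGood (X : Variety) : Prop where
  cones : IsConePair X.L X.C X.E
  linear : IsLinAction X.act
  preserves : X.Preserves
  kernel : SmallKernel {g | X.act g = id}

/-- `p` is the pull back of divisors by the quotient morphism `X → Y = X / H`: it is linear and
injective, its image consists of the classes which are invariant under `H`, a class on `Y` is in the
cone of `Y` if and only if its pull back is in the cone of `X`, and if the pull back of `y` is the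
class of a line bundle then so is `k y`, for some `k` which does not depend on `y`. -/
structure IsPullBack (X : Variety) (H : Subgroup X.G) (Y : Variety) (p : Y.N → X.N) : Prop where
  lin : IsLin p
  inj : Function.Injective p
  range : ∀ x, (∃ y, p y = x) ↔ ∀ h ∈ H, X.act h x = x
  int : ∀ y ∈ Y.L, p y ∈ X.L
  mult : ∃ k : ℕ, 0 < k ∧ ∀ y, p y ∈ X.L → (k : ℝ) • y ∈ Y.L
  mem_C : ∀ y, y ∈ Y.C ↔ p y ∈ X.C
  mem_E : ∀ y, y ∈ Y.E ↔ p y ∈ X.E

/-- `Y = X / H` for the finite group `H` of automorphisms of `X`: there is a pull back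
`N¹(Y) → N¹(X)`, and every `c` in the group of `X` which commutes with `H` descends to `Y`. -/
def IsQuotient (X : Variety) (H : Subgroup X.G) (Y : Variety) : Prop :=
  ∃ p : Y.N → X.N, X.IsPullBack H Y p ∧
    ∀ c : X.G, (∀ h ∈ H, c * h = h * c) → ∃ g : Y.G, ∀ y, p (Y.act g y) = X.act c (p y)

/-- `X` is the product of the varieties `S i`, and the classes on `X` are the sums of the pull backs
of classes on the factors; a class is in `C ∩ E` if and only if its components are, and the products
of elements of the groups of the factors act on `X`. -/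
def IsProduct (X : Variety) {I : Type} (S : I → Variety) : Prop :=
  ∃ e : X.N → (i : I) → (S i).N, IsLinIso e ∧ (∀ x, x ∈ X.L ↔ ∀ i, e x i ∈ (S i).L) ∧
    (∀ x, x ∈ X.C ∩ X.E ↔ ∀ i, e x i ∈ (S i).C ∩ (S i).E) ∧
    ∀ g : (i : I) → (S i).G, ∃ g' : X.G, ∀ x i, e (X.act g' x) i = (S i).act (g i) (e x i)

/-- `Y` is a quotient by a finite group of a product of varieties which are in the class `F`. -/
def IsCoveredBy {V : Type} (D : V → Variety) (Y : V) (F : Set V) : Prop :=
  ∃ (X : V) (H : Subgroup (D X).G), Finite H ∧ (D X).IsQuotient H (D Y) ∧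
    ∃ (I : Type) (_ : Fintype I) (S : I → V), (∀ i, S i ∈ F) ∧ (D X).IsProduct fun i => D (S i)

end Variety

end Run7.h334.CQ
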