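import Pool.Agent.Run7.h334.CQ.Cov
import Pool.Agent.Run7.h334.CQ.Defs

/-!
# Lattice points in closed cones; fundamental domains from coverings
-/

set_option autoImplicit false

namespace Run7.h334.CQ

open Pool.Agent.Y167 Finset

section

variable {N : Type*} [NormedAddCommGroup N] [NormedSpace ℝ N]

/-- `HasFundDomain` for linear maps. -/
def FD (L : AddSubgroup N) (A : Set N) (𝒢 : Set (N ≃ₗ[ℝ] N)) : Prop :=
  ∃ S : Finset N, (∀ a ∈ S, a ∈ L) ∧ A = {x | ∃ g ∈ 𝒢, ∃ y ∈ cone S, x = g y} ∧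
    ∀ g ∈ 𝒢, g ≠ 1 → interior (cone S) ∩ interior (g '' cone S) = ∅

/-- The linear maps in `𝒢` map `A` into itself. -/
def Pres (𝒢 : Set (N ≃ₗ[ℝ] N)) (A : Set N) : Prop := ∀ g ∈ 𝒢, ∀ x ∈ A, g x ∈ A

/-- Pull backs as linear maps. -/
structure PullB {M : Type*} [NormedAddCommGroup M] [NormedSpace ℝ M] (L : AddSubgroup N)
    (C E : Set N) (L' : AddSubgroup M) (C' E' : Set M) (𝓗 : Set (N ≃ₗ[ℝ] N)) (p : M →ₗ[ℝ] N) :
    Prop where
  inj : Function.Injective p
  range : ∀ x, (∃ y, p y = x) ↔ ∀ h ∈ 𝓗, h x = x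
  int : ∀ y ∈ L', p y ∈ L
  mult : ∃ k : ℕ, 0 < k ∧ ∀ y, p y ∈ L → (k : ℝ) • y ∈ L'
  mem_C : ∀ y, y ∈ C' ↔ p y ∈ C
  mem_E : ∀ y, y ∈ E' ↔ p y ∈ E

theorem fd_iff {L : AddSubgroup N} {A : Set N} {𝒢 : Set (N ≃ₗ[ℝ] N)} {𝒢' : Set (N → N)}
    (h : ∀ f, f ∈ 𝒢' ↔ ∃ g ∈ 𝒢, ∀ x, g x = f x) : FD L A 𝒢 ↔ HasFundDomain L A 𝒢' := by
  constructor
  · rintro ⟨S, h1, h2, h3⟩
    refine ⟨S, h1, ?_, ?_⟩
    · rw [h2]
      ext x
      constructor
      · rintro ⟨g, hg, y, hy, rfl⟩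
        exact ⟨g, (h _).2 ⟨g, hg, fun _ => rfl⟩, y, hy, rfl⟩
      · rintro ⟨f, hf, y, hy, rfl⟩
        obtain ⟨g, hg, hgf⟩ := (h f).1 hf
        exact ⟨g, hg, y, hy, (hgf y).symm⟩
    · intro f hf hf1
      obtain ⟨g, hg, hgf⟩ := (h f).1 hf
      have e : f = g := (funext hgf).symm
      have hg1 : g ≠ 1 := by
        rintro rfl
        exact hf1 (e.trans rfl)
      rw [e]
      exact h3 g hg hg1
  · rintro ⟨S, h1, h2, h3⟩
    refine ⟨S, h1, ?_, ?_⟩
    · rw [h2]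
      ext x
      constructor
      · rintro ⟨f, hf, y, hy, rfl⟩
        obtain ⟨g, hg, hgf⟩ := (h f).1 hf
        exact ⟨g, hg, y, hy, (hgf y).symm⟩
      · rintro ⟨g, hg, y, hy, rfl⟩
        exact ⟨g, (h _).2 ⟨g, hg, fun _ => rfl⟩, y, hy, rfl⟩
    · intro g hg hg1
      refine h3 g ((h _).2 ⟨g, hg, fun _ => rfl⟩) ?_
      intro h4
      apply hg1
      ext x
      exact congrFun h4 x

end

variable {N : Type*} [NormedAddCommGroup N] [NormedSpace ℝ N] [FiniteDimensional ℝ N]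
  {L : AddSubgroup N} {C E : Set N}

theorem exists_bound (hC : IsClosed C) (hC' : IsCone C) {ξ : N →ₗ[ℝ] ℝ}
    (hξ : ∀ x ∈ C, x ≠ 0 → 0 < ξ x) : ∃ c : ℝ, 0 < c ∧ ∀ x ∈ C, c * ‖x‖ ≤ ξ x := by
  have hcomp : IsCompact (C ∩ Metric.sphere (0 : N) 1) := (isCompact_sphere 0 1).inter_left hC
  have hcont : Continuous ξ := LinearMap.continuous_of_finiteDimensional ξ
  rcases (C ∩ Metric.sphere (0 : N) 1).eq_empty_or_nonempty with h | h
  · refine ⟨1, one_pos, fun x hx => ?_⟩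
    have hx0 : x = 0 := by
      by_contra hx0
      have h1 : (‖x‖⁻¹ • x) ∈ C ∩ Metric.sphere (0 : N) 1 := by
        refine ⟨hC'.2.2 _ (by positivity) _ hx, ?_⟩
        rw [mem_sphere_zero_iff_norm, norm_smul, norm_inv, norm_norm,
          inv_mul_cancel₀ (norm_ne_zero_iff.2 hx0)]
      rw [h] at h1
      exact h1
    rw [hx0]
    simp
  · obtain ⟨z, hz, hmin⟩ := hcomp.exists_isMinOn h hcont.continuousOn
    have hz0 : z ≠ 0 := by
      have h1 := mem_sphere_zero_iff_norm.1 hz.2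
      intro h0
      rw [h0, norm_zero] at h1
      exact zero_ne_one h1
    refine ⟨ξ z, hξ z hz.1 hz0, fun x hx => ?_⟩
    by_cases hx0 : x = 0
    · rw [hx0]
      simp
    have hn : 0 < ‖x‖ := norm_pos_iff.2 hx0
    have h1 : (‖x‖⁻¹ • x) ∈ C ∩ Metric.sphere (0 : N) 1 := by
      refine ⟨hC'.2.2 _ (by positivity) _ hx, ?_⟩
      rw [mem_sphere_zero_iff_norm, norm_smul, norm_inv, norm_norm, inv_mul_cancel₀ hn.ne']
    have h2 : ξ z ≤ ξ (‖x‖⁻¹ • x) := hmin h1
    rw [map_smul, smul_eq_mul] at h2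
    calc ξ z * ‖x‖ ≤ ‖x‖⁻¹ * ξ x * ‖x‖ := mul_le_mul_of_nonneg_right h2 hn.le
      _ = ξ x := by field_simp

theorem finite_lattice (hL : IsLattice L) (M : ℝ) : {x | x ∈ L ∧ ‖x‖ ≤ M}.Finite := by
  classical
  obtain ⟨ι, _, b, hb⟩ := hL
  have hcont : ∀ i, ∃ K : ℝ, ∀ x : N, |b.repr x i| ≤ K * ‖x‖ := by
    intro i
    let f : N →L[ℝ] ℝ := LinearMap.toContinuousLinearMap (b.coord i)
    refine ⟨‖f‖, fun x => ?_⟩
    have h1 := f.le_opNorm x
    rw [Real.norm_eq_abs] at h1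
    exact h1
  choose K hK using hcont
  let f : N → (ι → ℤ) := fun x i => ⌊b.repr x i⌋
  refine Set.Finite.of_finite_image (f := f) ?_ ?_
  · refine (Set.Finite.pi' (fun i => Set.finite_Icc (-⌈K i * M⌉ - 1) (⌈K i * M⌉ + 1))).subset ?_
    rintro _ ⟨x, ⟨hx, hxM⟩, rfl⟩ i
    have h0 : 0 ≤ ‖x‖ := norm_nonneg x
    by_cases hK0 : 0 ≤ K i
    · have h1 : |b.repr x i| ≤ K i * M := (hK i x).trans (mul_le_mul_of_nonneg_left hxM hK0)
      have h2 := abs_le.1 h1
      have h3 := Int.le_ceil (K i * M)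
      have h4 := Int.floor_le (b.repr x i)
      have h5 := Int.lt_floor_add_one (b.repr x i)
      refine Set.mem_Icc.2 ⟨?_, ?_⟩
      · have h6 : (((-⌈K i * M⌉ - 1 : ℤ)) : ℝ) < ⌊b.repr x i⌋ := by
          push_cast
          linarith
        exact (Int.cast_lt.1 h6).le
      · have h6 : ((⌊b.repr x i⌋ : ℤ) : ℝ) ≤ ((⌈K i * M⌉ + 1 : ℤ) : ℝ) := by
          push_cast
          linarith
        exact Int.cast_le.1 h6
    · have h1 := hK i x
      have h2 : |b.repr x i| ≤ 0 := h1.trans (mul_nonpos_of_nonpos_of_nonneg (not_le.1 hK0).le h0)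
      have h3 : b.repr x i = 0 := abs_nonpos_iff.1 h2
      have h4 : K i * ‖x‖ = 0 := by
        have h5 := abs_nonneg (b.repr x i)
        have h6 := mul_nonpos_of_nonpos_of_nonneg (not_le.1 hK0).le h0
        linarith [h1, h2]
      have h5 : ‖x‖ = 0 := by
        rcases mul_eq_zero.1 h4 with h6 | h6
        · exact absurd h6 (not_le.1 hK0).ne
        · exact h6
      have hM : 0 ≤ M := by linarith
      have h7 : K i * M ≤ 0 := mul_nonpos_of_nonpos_of_nonneg (not_le.1 hK0).le hM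
      show ⌊b.repr x i⌋ ∈ _
      rw [h3, Int.floor_zero]
      have h8 : ∃ y : N, 0 < |b.repr y i| := ⟨b i, by simp⟩
      obtain ⟨y, hy⟩ := h8
      have h9 := hK i y
      have h10 := mul_nonpos_of_nonpos_of_nonneg (not_le.1 hK0).le (norm_nonneg y)
      linarith
  · rintro x ⟨hx, -⟩ y ⟨hy, -⟩ hxy
    apply b.repr.injective
    ext i
    obtain ⟨n, hn⟩ := (hb x).1 hx i
    obtain ⟨m, hm⟩ := (hb y).1 hy i
    have h1 := congrFun hxy i
    simp only [f] at h1
    rw [hn, hm, Int.floor_intCast, Int.floor_intCast] at h1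
    rw [hn, hm, h1]

omit [FiniteDimensional ℝ N] in
theorem IsConePair.inter (h : IsConePair L C E) : IsCone (C ∩ E) :=
  ⟨⟨h.cone_C.1, h.cone_E.1⟩, fun x hx y hy => ⟨h.cone_C.2.1 x hx.1 y hy.1, h.cone_E.2.1 x hx.2 y hy.2⟩,
    fun t ht x hx => ⟨h.cone_C.2.2 t ht x hx.1, h.cone_E.2.2 t ht x hx.2⟩⟩

theorem exists_cdata (h : IsConePair L C E) :
    ∃ (ξ : N →ₗ[ℝ] ℝ) (y : N) (Y : Finset N), CData L (C ∩ E) ξ y Y := by
  classical
  obtain ⟨ι, hι, b, hb⟩ := h.lattice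
  obtain ⟨y, hyL, hy⟩ := h.ample
  obtain ⟨ξ, hξL, hξ⟩ := h.degree
  obtain ⟨c, hc, hcξ⟩ := exists_bound h.closed h.cone_C hξ
  have hP := h.inter
  have hyint : ∀ x : N, ∃ K : ℝ, 0 < K ∧ K • y - x ∈ C ∩ E := by
    intro x
    obtain ⟨ε, hε, hball⟩ := Metric.isOpen_iff.1 isOpen_interior y hy
    obtain ⟨K, hK⟩ := exists_nat_gt (‖x‖ / ε)
    have hK0 : (0 : ℝ) < K := lt_of_le_of_lt (by positivity) hK
    refine ⟨K, hK0, ?_⟩
    have h1 : y - (K : ℝ)⁻¹ • x ∈ Metric.ball y ε := by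
      rw [Metric.mem_ball, dist_eq_norm, sub_sub_cancel_left, norm_neg, norm_smul, norm_inv,
        Real.norm_of_nonneg hK0.le, inv_mul_lt_iff₀ hK0]
      rwa [div_lt_iff₀ hε] at hK
    have h2 := hP.2.2 K hK0.le _ (interior_subset (hball h1))
    rwa [smul_sub, smul_smul, mul_inv_cancel₀ hK0.ne', one_smul] at h2
  have hM : ∀ i, ∃ M : ℕ, (M : ℝ) • y + b i ∈ C ∩ E := by
    intro i
    obtain ⟨K, hK, h1⟩ := hyint (-(b i))
    obtain ⟨M, hM⟩ := exists_nat_ge K
    refine ⟨M, ?_⟩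
    have h2 := hP.2.1 _ h1 _ (hP.2.2 ((M : ℝ) - K) (by linarith) _ (interior_subset hy))
    have h3 : K • y - -(b i) + ((M : ℝ) - K) • y = (M : ℝ) • y + b i := by
      rw [sub_smul]
      abel
    rwa [h3] at h2
  choose M hM using hM
  have hbL : ∀ i, b i ∈ L := by
    intro i
    rw [hb]
    intro j
    by_cases hij : i = j
    · exact ⟨1, by simp [hij]⟩
    · exact ⟨0, by simp [hij]⟩
  refine ⟨ξ, y, insert y (Finset.univ.image fun i => (M i : ℝ) • y + b i), ?_⟩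
  exact
    { add := hP.2.1
      smul := hP.2.2
      xi_int := hξL
      xi_pos := fun x hx h0 => hξ x hx.1 h0
      fin := by
        intro B
        refine (finite_lattice h.lattice (B / c)).subset ?_
        rintro x ⟨hxL, hx, hxB⟩
        refine ⟨hxL, ?_⟩
        rw [le_div_iff₀ hc]
        have := hcξ x hx.1
        linarith
      y_L := hyL
      y_N := interior_subset hy
      y_int := hyint
      dom := by
        intro η
        refine ⟨‖LinearMap.toContinuousLinearMap η‖ / c, fun x hx => ?_⟩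
        have h1 := (LinearMap.toContinuousLinearMap η).le_opNorm x
        rw [Real.norm_eq_abs] at h1
        refine h1.trans ?_
        rw [div_mul_eq_mul_div, le_div_iff₀ hc, mul_assoc]
        refine mul_le_mul_of_nonneg_left ?_ (norm_nonneg _)
        have := hcξ x hx.1
        linarith
      sep := by
        intro x hx
        have h1 : ∃ i, b.repr x i ≠ 0 := by
          by_contra hcon
          push Not at hcon
          apply hx
          apply b.repr.injective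
          ext i
          rw [hcon i, map_zero]
          rfl
        obtain ⟨i, hi⟩ := h1
        exact ⟨b.coord i, fun y hy => (hb y).1 hy i, hi⟩
      Y_mem := by
        intro z hz
        rcases Finset.mem_insert.1 hz with rfl | hz
        · exact ⟨hyL, interior_subset hy⟩
        · obtain ⟨i, -, rfl⟩ := Finset.mem_image.1 hz
          refine ⟨L.add_mem ?_ (hbL i), hM i⟩
          rw [Nat.cast_smul_eq_nsmul]
          exact L.nsmul_mem hyL _
      Y_span := by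
        intro φ hφ
        have h0 := hφ y (Finset.mem_insert_self _ _)
        apply b.ext
        intro i
        have h1 := hφ _ (Finset.mem_insert_of_mem (Finset.mem_image_of_mem _ (Finset.mem_univ i)))
        rw [map_add, map_smul, h0, smul_zero, zero_add] at h1
        rw [h1]
        rfl }

omit [FiniteDimensional ℝ N] in
/-- Fundamental domains from a covering of the interior. -/
theorem fund_of_cov {ξ : N →ₗ[ℝ] ℝ} {y₀ : N} {Y : Finset N}
    (D : CData L (C ∩ E) ξ y₀ Y) (𝒢 : Subgroup (N ≃ₗ[ℝ] N)) (hL : Pres (𝒢 : Set _) (L : Set N))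
    (hP : Pres (𝒢 : Set _) (C ∩ E)) {F : Finset N} (hF : ∀ a ∈ F, a ∈ L ∧ a ∈ C ∩ E)
    (hcov : ∀ x, (∃ t : ℝ, 0 < t ∧ x - t • y₀ ∈ C ∩ E) → ∃ g ∈ 𝒢, g x ∈ cone F)
    (hrat : ∀ x ∈ C ∩ E, x ∈ Cp L (C ∩ E)) : FD L (C ∩ E) (𝒢 : Set (N ≃ₗ[ℝ] N)) := by
  obtain ⟨S, hS, h1, h2⟩ := D.domain 𝒢 hL hP F hF hcov
  refine ⟨S, fun a ha => (hS a ha).1, ?_, ?_⟩
  · ext x
    constructor
    · intro hx
      obtain ⟨g, hg, hgx⟩ := (h1 x).1 (hrat x hx)
      exact ⟨g⁻¹, 𝒢.inv_mem hg, g x, hgx, (g.symm_apply_apply x).symm⟩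
    · rintro ⟨g, hg, y, hy, rfl⟩
      exact hP g hg _ (D.cone_Nf hS hy)
  · intro g hg hg1
    obtain ⟨φ, hφ0, hφ1, hφ2⟩ := h2 g hg hg1
    rw [Set.eq_empty_iff_forall_notMem]
    rintro z ⟨hz1, hz2⟩
    apply hφ0
    have hz3 := interior_subset hz2
    obtain ⟨y, hy, hyz⟩ := hz3
    have hz0 : φ z = 0 := by
      refine le_antisymm ?_ (hφ1 z (interior_subset hz1))
      rw [← hyz]
      exact hφ2 y hy
    ext v
    have key : ∀ v : N, 0 ≤ φ v := by
      intro v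
      have hcont : Filter.Tendsto (fun t : ℝ => z + t • v) (nhdsWithin 0 (Set.Ioi 0)) (nhds z) := by
        have h3 : Continuous fun t : ℝ => z + t • v := by fun_prop
        have h4 := h3.tendsto 0
        rw [zero_smul, add_zero] at h4
        exact h4.mono_left nhdsWithin_le_nhds
      have h5 := hcont.eventually (mem_interior_iff_mem_nhds.1 hz1)
      obtain ⟨t, ht, ht0⟩ := (h5.and self_mem_nhdsWithin).exists
      have ht0 : 0 < t := ht0
      have h6 := hφ1 _ ht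
      rw [map_add, map_smul, hz0, zero_add, smul_eq_mul] at h6
      exact nonneg_of_mul_nonneg_right h6 ht0
    have h7 := key v
    have h8 := key (-v)
    rw [map_neg] at h8
    show φ v = 0
    linarith

end Run7.h334.CQ
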