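import Pool.Agent.Run7.h334.CQ.Defs

/-!
# Closure under products and finite quotients; kernels with finitely many lifts: definitions
-/

set_option autoImplicit false

namespace Run7.h334.CQ

/-- For every finite subgroup `H` of `G` there are, up to conjugation by elements of `K`, only
finitely many homomorphisms `h ↦ g h g⁻¹` from `H` to `G` which are the identity modulo `K`. This is
true for the algebraic groups `K` over an algebraically closed field of characteristic `0` on which
the finite subgroups of `G` act algebraically: `Hom(H, K H)` is of finite type, and the orbits of the
identity component of `K` are open in it, as the first cohomology of `H` with values in the Lie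
algebra of `K` is zero. -/
def FiniteLifts {G : Type*} [Group G] (K : Set G) : Prop :=
  ∀ H : Subgroup G, Finite H → ∃ Φ : Set (H → G), Φ.Finite ∧
    ∀ g : G, (∀ h : H, g * h * g⁻¹ * (h : G)⁻¹ ∈ K) →
      ∃ b ∈ K, (fun h : H => b * g * h * (b * g)⁻¹) ∈ Φ

namespace Variety

/-- Known properties of the data of a projective variety; no assumption on the structure of the
kernel of the action, except that finite subgroups have finitely many lifts. -/
structure IsFine (X : Variety) : Prop where
  cones : IsConePair X.L X.C X.E
  linear : IsLinAction X.act
  preserves : X.Preserves
  lifts : FiniteLifts {g | X.act g = id}

/-- The smallest class of varieties which contains `F` and is closed under products and under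
quotients by finite groups, inside a class `V`. -/
inductive Gen {V : Type} (D : V → Variety) (F : Set V) : V → Prop
  | mem (X : V) : X ∈ F → Gen D F X
  | quot (X Y : V) (H : Subgroup (D X).G) :
      Gen D F X → Finite H → (D X).IsQuotient H (D Y) → Gen D F Y
  | prod (X : V) (I : Type) (S : I → V) :
      (∀ i, Gen D F (S i)) → Finite I → (D X).IsProduct (fun i => D (S i)) → Gen D F X

end Variety

end Run7.h334.CQ
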