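import Pool.Agent.Run7.h334.CQ.Main
import Pool.Agent.Run7.h334.CQ.AbsDefs

/-!
# The cone conjecture for finite quotients and products: kernels with finitely many lifts
-/

set_option autoImplicit false

namespace Run7.h334.CQ

open Pool.Agent.Y167 Finset

namespace Variety

namespace Fine

theorem _root_.Run7.h334.CQ.Variety.IsFine.inter {X : Variety} (h : X.IsFine) : IsCone (X.C ∩ X.E) := h.cones.inter

/-- The data of a good variety with a linear action. -/
theorem _root_.Run7.h334.CQ.Variety.IsFine.rep {X : Variety} (h : X.IsFine) : ∃ ρ : X.G →* (X.N ≃ₗ[ℝ] X.N),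
    (∀ g x, ρ g x = X.act g x) ∧ Pres (Set.range ρ) (X.L : Set X.N) ∧ Pres (Set.range ρ) X.C ∧
    Pres (Set.range ρ) X.E ∧ FinLifts ρ.ker ∧ (X.ConeConj ↔ FD X.L (X.C ∩ X.E) (Set.range ρ)) := by
  obtain ⟨ρ, hρ⟩ := h.linear
  refine ⟨ρ, hρ, ?_, ?_, ?_, ?_, ?_⟩
  · rintro _ ⟨g, rfl⟩ x hx
    rw [hρ]
    exact (h.preserves g).1 x hx
  · rintro _ ⟨g, rfl⟩ x hx
    rw [hρ]
    exact (h.preserves g).2.1 x hx
  · rintro _ ⟨g, rfl⟩ x hx
    rw [hρ]
    exact (h.preserves g).2.2 x hx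
  · have hker : ∀ g, g ∈ ρ.ker ↔ g ∈ {g | X.act g = id} := by
      intro g
      rw [MonoidHom.mem_ker]
      constructor
      · intro h1
        show X.act g = id
        funext x
        rw [← hρ, h1]
        rfl
      · intro h1
        have h1 : X.act g = id := h1
        ext x
        rw [hρ, h1]
        rfl
    intro H hH
    obtain ⟨Φ, hΦ, h2⟩ := h.lifts H hH
    refine ⟨Φ, hΦ, fun g hg => ?_⟩
    obtain ⟨b, hb, h3⟩ := h2 g fun h => (hker _).1 (hg h)
    exact ⟨b, (hker b).2 hb, h3⟩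
  · refine (fd_iff fun f => ?_).symm
    constructor
    · rintro ⟨g, rfl⟩
      exact ⟨ρ g, ⟨g, rfl⟩, fun x => hρ g x⟩
    · rintro ⟨_, ⟨g, rfl⟩, h1⟩
      exact ⟨g, funext fun x => (hρ g x).symm.trans (h1 x)⟩

/-- The cone conjecture passes to finite quotients. -/
theorem quotient {X Y : Variety} (hX : X.IsFine) (hY : Y.IsFine) {H : Subgroup X.G} (hH : Finite H)
    (hq : X.IsQuotient H Y) (h : X.ConeConj) : Y.ConeConj := by
  obtain ⟨p, hp, hdesc⟩ := hq
  obtain ⟨π, hπ, hπL, hπC, hπE, hK, hiff⟩ := hX.rep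
  obtain ⟨σ, hσ, hσL, hσC, hσE, -, hiff'⟩ := hY.rep
  have hn : (⊤ : Subgroup X.G).Normal := inferInstance
  have hK' : FinLifts ((⊤ : Subgroup X.G) ⊓ π.ker) := by
    rw [top_inf_eq]
    exact hK
  have h1 : FD X.L (X.C ∩ X.E) (π '' (⊤ : Subgroup X.G)) := by
    rw [Subgroup.coe_top, Set.image_univ]
    exact hiff.1 h
  obtain ⟨p', hp'⟩ := hp.lin
  have e : (p' : Y.N → X.N) = p := funext hp'
  have hP : PullB X.L X.C X.E Y.L Y.C Y.E (π '' H) p' := by
    refine ⟨?_, ?_, ?_, ?_, ?_, ?_⟩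
    · rw [e]
      exact hp.inj
    · intro x
      simp only [hp']
      rw [hp.range]
      constructor
      · rintro h2 _ ⟨g, hg, rfl⟩
        rw [hπ]
        exact h2 g hg
      · intro h2 g hg
        rw [← hπ]
        exact h2 _ ⟨g, hg, rfl⟩
    · intro y hy
      rw [hp']
      exact hp.int y hy
    · obtain ⟨k, hk, h2⟩ := hp.mult
      refine ⟨k, hk, fun y hy => h2 y ?_⟩
      rwa [hp'] at hy
    · intro y
      rw [hp']
      exact hp.mem_C y
    · intro y
      rw [hp']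
      exact hp.mem_E y
  have hr : (σ.range : Set (Y.N ≃ₗ[ℝ] Y.N)) = Set.range σ := MonoidHom.coe_range _
  have h2 := quotient_core hX.cones hY.cones π hπL hπC hπE hn hK' h1 H hH hP
    σ.range (by rw [hr]; exact hσL) (by rw [hr]; exact hσC) (by rw [hr]; exact hσE) (by
      intro c _ hc
      obtain ⟨g, hg⟩ := hdesc c hc
      refine ⟨σ g, ⟨g, rfl⟩, fun y => ?_⟩
      rw [hp', hp', hσ, hπ]
      exact hg y)
  rw [hr] at h2
  exact hiff'.2 h2

/-- The cone conjecture passes to products. -/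
theorem product {X : Variety} (hX : X.IsFine) {I : Type} [Fintype I] {S : I → Variety}
    (hS : ∀ i, (S i).IsFine) (hp : X.IsProduct S) (h : ∀ i, (S i).ConeConj) : X.ConeConj := by
  classical
  obtain ⟨e', ⟨e, hee⟩, heL', heP', heG'⟩ := hp
  obtain ⟨π, hπ, hπL, hπC, hπE, -, hiff⟩ := hX.rep
  have hrep := fun i => (hS i).rep
  choose σ hσ hσL hσC hσE _ hiffS using hrep
  have heL : ∀ x, x ∈ X.L ↔ ∀ i, e x i ∈ (S i).L := by
    intro x
    rw [hee]
    exact heL' x
  have heP : ∀ x, x ∈ X.C ∩ X.E ↔ ∀ i, e x i ∈ (S i).C ∩ (S i).E := by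
    intro x
    rw [hee]
    exact heP' x
  have heG : ∀ g : (i : I) → (S i).G, ∃ g' : X.G, ∀ x i, e (π g' x) i = σ i (g i) (e x i) := by
    intro g
    obtain ⟨g', hg'⟩ := heG' g
    refine ⟨g', fun x i => ?_⟩
    rw [hee, hee, hπ, hσ]
    exact hg' x i
  obtain ⟨ξ, y₀, Y, D⟩ := exists_cdata hX.cones
  have hP := hX.inter
  have hFD : ∀ i, FD (S i).L ((S i).C ∩ (S i).E) (Set.range (σ i)) := fun i => (hiffS i).1 (h i)
  choose T hTL hTcov _ using hFD
  have h1 : ∀ i, (1 : (S i).N ≃ₗ[ℝ] (S i).N) ∈ Set.range (σ i) := fun i => ⟨1, map_one _⟩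
  have hT : ∀ i, ∀ a ∈ T i, a ∈ (S i).C ∩ (S i).E := fun i a ha =>
    mem_of_gen (h1 i) (hTcov i) ha
  let f : (i : I) → (S i).N →ₗ[ℝ] X.N := fun i =>
    (e.symm : ((i : I) → (S i).N) →ₗ[ℝ] X.N) ∘ₗ LinearMap.single ℝ (fun i => (S i).N) i
  have hfe : ∀ i a, e (f i a) = Pi.single i a := fun i a => e.apply_symm_apply _
  let F : Finset X.N := Finset.univ.biUnion fun i => (T i).image (f i)
  have hF : ∀ a ∈ F, a ∈ X.L ∧ a ∈ X.C ∩ X.E := by
    intro a ha
    obtain ⟨i, -, h2⟩ := Finset.mem_biUnion.1 ha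
    obtain ⟨b, hb, rfl⟩ := Finset.mem_image.1 h2
    refine ⟨(heL _).2 fun j => ?_, (heP _).2 fun j => ?_⟩
    · rw [hfe]
      by_cases hij : j = i
      · subst hij
        rw [Pi.single_eq_same]
        exact hTL _ b hb
      · rw [Pi.single_eq_of_ne hij]
        exact (S j).L.zero_mem
    · rw [hfe]
      by_cases hij : j = i
      · subst hij
        rw [Pi.single_eq_same]
        exact hT _ b hb
      · rw [Pi.single_eq_of_ne hij]
        exact (hS j).inter.1
  have hcov : ∀ x ∈ X.C ∩ X.E, ∃ g : X.G, π g x ∈ cone F := by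
    intro x hx
    have h2 := (heP x).1 hx
    have h3 : ∀ i, ∃ g : (S i).G, σ i g (e x i) ∈ cone (T i) := by
      intro i
      have h4 := h2 i
      rw [hTcov i] at h4
      obtain ⟨_, ⟨g, rfl⟩, y, hy, h5⟩ := h4
      refine ⟨g⁻¹, ?_⟩
      rw [h5]
      have h6 : σ i g⁻¹ (σ i g y) = (σ i g⁻¹ * σ i g) y := rfl
      rw [h6, ← map_mul, inv_mul_cancel, map_one]
      exact hy
    choose g hg using h3
    obtain ⟨g', hg'⟩ := heG g
    refine ⟨g', ?_⟩
    have h4 : π g' x = ∑ i, f i (σ i (g i) (e x i)) := by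
      apply e.injective
      rw [map_sum]
      simp only [hfe]
      rw [Finset.univ_sum_single]
      funext i
      exact hg' x i
    rw [h4]
    refine cone_sum _ _ fun i _ => ?_
    refine cone_mono ?_ (cone_image (f i) (hg i))
    exact Finset.subset_biUnion_of_mem (fun i => (T i).image (f i)) (Finset.mem_univ i)
  have hr : (π.range : Set (X.N ≃ₗ[ℝ] X.N)) = Set.range π := MonoidHom.coe_range _
  have h5 := fund_of_cov D π.range (by rw [hr]; exact hπL)
    (by rw [hr]; exact fun g hg x hx => ⟨hπC g hg x hx.1, hπE g hg x hx.2⟩)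
    (F := F) hF (by
      rintro x ⟨t, ht, hx⟩
      have h2 := hP.2.1 _ hx _ (hP.2.2 t ht.le _ D.y_N)
      rw [sub_add_cancel] at h2
      obtain ⟨g, hg⟩ := hcov x h2
      exact ⟨π g, ⟨g, rfl⟩, hg⟩) (by
      intro x hx
      obtain ⟨g, hg⟩ := hcov x hx
      refine ⟨F.image (π g⁻¹ : X.N →ₗ[ℝ] X.N), ?_, ?_⟩
      · intro a ha
        obtain ⟨b, hb, rfl⟩ := Finset.mem_image.1 ha
        exact ⟨hπL _ ⟨_, rfl⟩ _ (hF b hb).1, hπC _ ⟨_, rfl⟩ _ (hF b hb).2.1,
          hπE _ ⟨_, rfl⟩ _ (hF b hb).2.2⟩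
      · have h6 := cone_image (π g⁻¹ : X.N →ₗ[ℝ] X.N) hg
        have h7 : (π g⁻¹ : X.N →ₗ[ℝ] X.N) (π g x) = x := by
          show (π g⁻¹ * π g) x = x
          rw [← map_mul, inv_mul_cancel, map_one]
          rfl
        rwa [h7] at h6)
  rw [hr] at h5
  exact hiff.2 h5

/-- The cone conjecture for all varieties generated by products and finite quotients. -/
theorem gen {V : Type} {D : V → Variety} (hD : ∀ X, (D X).IsFine) {F : Set V}
    (hF : ∀ S ∈ F, (D S).ConeConj) {X : V} (hX : Gen D F X) : (D X).ConeConj := by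
  induction hX with
  | mem X hX => exact hF X hX
  | quot X Y H _ hH hq ih => exact quotient (hD X) (hD Y) hH hq ih
  | prod X I S _ hI hp ih =>
    have := Fintype.ofFinite I
    exact product (hD X) (fun i => hD (S i)) hp ih

end Fine

/-- Good varieties are fine. -/
theorem IsGood.fine {X : Variety} (h : X.IsGood) : X.IsFine := by
  refine ⟨h.cones, h.linear, h.preserves, ?_⟩
  obtain ⟨ρ, hρ, -, -, -, hK, -⟩ := h.rep
  have hker : ∀ g, g ∈ ρ.ker ↔ X.act g = id := by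
    intro g
    rw [MonoidHom.mem_ker]
    constructor
    · intro h1
      funext x
      rw [← hρ, h1]
      rfl
    · intro h1
      ext x
      rw [hρ, h1]
      rfl
  intro H hH
  obtain ⟨Φ, hΦ, h2⟩ := hK H hH
  refine ⟨Φ, hΦ, fun g hg => ?_⟩
  obtain ⟨b, hb, h3⟩ := h2 g fun h => (hker _).2 (hg h)
  exact ⟨b, (hker b).1 hb, h3⟩

end Variety

end Run7.h334.CQ
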