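import Pool.Agent.K3h69.KQ.Abs
import Pool.Agent.Run7.h334.CQ.Lift

/-!
# The covering of the invariant part of a cone by translates under the centraliser
-/

set_option autoImplicit false

namespace Run7.h334.CQ

open Pool.Agent.Y167 Pool.Agent.K3h69.KQ Finset

variable {W : Type*} [AddCommGroup W] [Module ℝ W]
  {L : AddSubgroup W} {Nf : Set W} {ξ₀ : W →ₗ[ℝ] ℝ} {y₀ : W} {Y : Finset W}

/-- `Γ` acts on the cone, and the normal subgroup `G` moves every interior point into the cone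
generated by `F`. Let `H` be a finite subgroup of `Γ`. Then the elements of `G` which commute with
`H` move every interior point which is fixed by `H` into a finitely generated cone. -/
theorem cov {Γ : Type*} [Group Γ] (π : Γ →* (W ≃ₗ[ℝ] W)) (D : CData L Nf ξ₀ y₀ Y)
    (hL : ∀ g, ∀ x ∈ L, π g x ∈ L) (hN : ∀ g, ∀ x ∈ Nf, π g x ∈ Nf)
    {G : Subgroup Γ} (hG : G.Normal) (hK : FinLifts (G ⊓ π.ker))
    (F : Finset W) (hF : ∀ a ∈ F, a ∈ L ∧ a ∈ Nf)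
    (hcov : ∀ x, (∃ t : ℝ, 0 < t ∧ x - t • y₀ ∈ Nf) → ∃ g ∈ G, π g x ∈ cone F)
    (H : Subgroup Γ) (hH : Finite H) :
    ∃ F₁ : Finset W, (∀ a ∈ F₁, a ∈ L ∧ a ∈ Nf) ∧
      ∀ x, (∃ t : ℝ, 0 < t ∧ x - t • y₀ ∈ Nf) → (∀ h ∈ H, π h x = x) →
        ∃ c ∈ G, (∀ h ∈ H, c * h = h * c) ∧ π c x ∈ cone F₁ := by
  classical
  have hKf := fin_stab D π.range (by rintro _ ⟨g, rfl⟩; exact hL g)
    (by rintro _ ⟨g, rfl⟩; exact hN g) F hF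
  set 𝒦 := {k : W ≃ₗ[ℝ] W | k ∈ π.range ∧ ∃ z, z ∈ cone F ∧
    (∃ t : ℝ, 0 < t ∧ z - t • y₀ ∈ Nf) ∧ k z = z} with h𝒦
  have hint : ∀ g x, (∃ t : ℝ, 0 < t ∧ x - t • y₀ ∈ Nf) →
      ∃ t : ℝ, 0 < t ∧ π g x - t • y₀ ∈ Nf := by
    rintro g x ⟨t, ht, hx⟩
    obtain ⟨C, hC, h⟩ := D.y_int (π g⁻¹ y₀)
    have h1 := hN g _ h
    rw [map_sub, map_smul] at h1
    have h2 : π g (π g⁻¹ y₀) = y₀ := by
      have : π g (π g⁻¹ y₀) = (π g * π g⁻¹) y₀ := rfl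
      rw [this, ← map_mul, mul_inv_cancel, map_one]
      rfl
    rw [h2] at h1
    have h3 := hN g _ hx
    rw [map_sub, map_smul] at h3
    refine ⟨t / C, by positivity, ?_⟩
    have h4 := D.add _ h3 _ (D.smul (t / C) (by positivity) _ h1)
    have h5 : π g x - t • π g y₀ + (t / C) • (C • π g y₀ - y₀) = π g x - (t / C) • y₀ := by
      rw [smul_sub, smul_smul, div_mul_cancel₀ _ hC.ne']
      abel
    rwa [h5] at h4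
  -- the functions `h ↦ π (g h g⁻¹)`
  let Ψ : Set (H → (W ≃ₗ[ℝ] W)) := {ψ | ∃ g ∈ G, ∃ x : W, (∃ t : ℝ, 0 < t ∧ x - t • y₀ ∈ Nf) ∧
    (∀ h ∈ H, π h x = x) ∧ π g x ∈ cone F ∧ ψ = fun h : H => π (g * h * g⁻¹)}
  have hΨ : Ψ.Finite := by
    refine (Set.Finite.pi' (fun _ : H => hKf)).subset ?_
    rintro _ ⟨g, -, x, hx, hfix, hgx, rfl⟩ h
    refine ⟨⟨_, rfl⟩, π g x, hgx, hint g x hx, ?_⟩
    have : π (g * h * g⁻¹) (π g x) = (π (g * h * g⁻¹) * π g) x := rfl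
    rw [this, ← map_mul, inv_mul_cancel_right, map_mul]
    show π g (π h x) = _
    rw [hfix h h.2]
  have hch : ∀ ψ ∈ Ψ, ∃ g ∈ G, ψ = fun h : H => π (g * h * g⁻¹) := by
    rintro _ ⟨g, hg, x, -, -, -, rfl⟩
    exact ⟨g, hg, rfl⟩
  choose! γ hγG hγ using hch
  obtain ⟨Φ, hΦ, hΦ'⟩ := hK H hH
  let Φ' : Set (H → Γ) := {φ | φ ∈ Φ ∧ ∃ g ∈ G, φ = fun h : H => g * h * g⁻¹}
  have hΦf : Φ'.Finite := hΦ.subset fun φ h => h.1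
  have hch2 : ∀ φ ∈ Φ', ∃ g ∈ G, φ = fun h : H => g * h * g⁻¹ := fun φ h => h.2
  choose! δ hδG hδ using hch2
  refine ⟨hΨ.toFinset.biUnion fun ψ => hΦf.toFinset.biUnion fun φ =>
    F.image fun a => π (γ ψ * δ φ)⁻¹ a, ?_, ?_⟩
  · intro a ha
    obtain ⟨ψ, -, h1⟩ := Finset.mem_biUnion.1 ha
    obtain ⟨φ, -, h2⟩ := Finset.mem_biUnion.1 h1
    obtain ⟨b, hb, rfl⟩ := Finset.mem_image.1 h2
    exact ⟨hL _ _ (hF b hb).1, hN _ _ (hF b hb).2⟩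
  · intro x hx hfix
    obtain ⟨g, hg, hgx⟩ := hcov x hx
    set ψ : H → (W ≃ₗ[ℝ] W) := fun h => π (g * h * g⁻¹) with hψ
    have hψΨ : ψ ∈ Ψ := ⟨g, hg, x, hx, hfix, hgx, rfl⟩
    have h1 := hγ ψ hψΨ
    have hγψ := hγG ψ hψΨ
    obtain ⟨b, hb, hbΦ⟩ := hΦ' ((γ ψ)⁻¹ * g) (by
      intro h
      refine Subgroup.mem_inf.2 ⟨?_, ?_⟩
      · have h2 : (γ ψ)⁻¹ * g ∈ G := G.mul_mem (G.inv_mem hγψ) hg
        have h3 := hG.conj_mem _ (G.inv_mem h2) h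
        have h4 : (γ ψ)⁻¹ * g * h * ((γ ψ)⁻¹ * g)⁻¹ * (h : Γ)⁻¹ =
            ((γ ψ)⁻¹ * g) * (h * ((γ ψ)⁻¹ * g)⁻¹ * (h : Γ)⁻¹) := by group
        rw [h4]
        exact G.mul_mem h2 h3
      · rw [MonoidHom.mem_ker]
        have h5 : π (g * h * g⁻¹) = π (γ ψ * h * (γ ψ)⁻¹) := congrFun h1 h
        have h6 : (γ ψ)⁻¹ * g * h * ((γ ψ)⁻¹ * g)⁻¹ * (h : Γ)⁻¹ =
            (γ ψ)⁻¹ * (g * h * g⁻¹) * (γ ψ) * (h : Γ)⁻¹ := by group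
        have h7 : (γ ψ)⁻¹ * (γ ψ * h * (γ ψ)⁻¹) * (γ ψ) * (h : Γ)⁻¹ = 1 := by group
        rw [h6, map_mul, map_mul, map_mul, h5, ← map_mul, ← map_mul, ← map_mul, h7, map_one])
    have hbG : b ∈ G := (Subgroup.mem_inf.1 hb).1
    have hbK : π b = 1 := (Subgroup.mem_inf.1 hb).2
    set φ : H → Γ := fun h : H => b * ((γ ψ)⁻¹ * g) * h * (b * ((γ ψ)⁻¹ * g))⁻¹ with hφ
    have hφΦ : φ ∈ Φ' := ⟨hbΦ, b * ((γ ψ)⁻¹ * g),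
      G.mul_mem hbG (G.mul_mem (G.inv_mem hγψ) hg), rfl⟩
    have h2 := hδ φ hφΦ
    have hδφ := hδG φ hφΦ
    refine ⟨(δ φ)⁻¹ * (b * ((γ ψ)⁻¹ * g)), G.mul_mem (G.inv_mem hδφ)
      (G.mul_mem hbG (G.mul_mem (G.inv_mem hγψ) hg)), ?_, ?_⟩
    · intro h hh
      have h3 : b * ((γ ψ)⁻¹ * g) * h * (b * ((γ ψ)⁻¹ * g))⁻¹ = δ φ * h * (δ φ)⁻¹ :=
        congrFun h2 ⟨h, hh⟩
      have h4 : b * ((γ ψ)⁻¹ * g) * h = δ φ * h * (δ φ)⁻¹ * (b * ((γ ψ)⁻¹ * g)) := by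
        rw [← h3, inv_mul_cancel_right]
      rw [mul_assoc, h4]
      group
    · have h3 : π ((δ φ)⁻¹ * (b * ((γ ψ)⁻¹ * g))) x = π (γ ψ * δ φ)⁻¹ (π g x) := by
        have h4 : π ((δ φ)⁻¹ * (b * ((γ ψ)⁻¹ * g))) = π (γ ψ * δ φ)⁻¹ * π g := by
          rw [map_mul, map_mul, hbK, one_mul, ← map_mul, ← map_mul]
          congr 1
          group
        rw [h4]
        rfl
      rw [h3]
      have h5 : ((π (γ ψ * δ φ)⁻¹ : W ≃ₗ[ℝ] W) : W →ₗ[ℝ] W) (π g x) ∈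
        cone (F.image ((π (γ ψ * δ φ)⁻¹ : W ≃ₗ[ℝ] W) : W →ₗ[ℝ] W)) := cone_image _ hgx
      refine cone_mono ?_ h5
      intro a ha
      exact Finset.mem_biUnion.2 ⟨ψ, hΨ.mem_toFinset.2 hψΨ,
        Finset.mem_biUnion.2 ⟨φ, hΦf.mem_toFinset.2 hφΦ, ha⟩⟩

end Run7.h334.CQ
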