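import Pool.Agent.Run7.h334.CQ.Geo

/-!
# The cone conjecture for finite quotients and products
-/

set_option autoImplicit false

namespace Run7.h334.CQ

open Pool.Agent.Y167 Finset

section Core

variable {N : Type*} [NormedAddCommGroup N] [NormedSpace ℝ N] [FiniteDimensional ℝ N]
  {L : AddSubgroup N} {C E : Set N}
  {M : Type*} [NormedAddCommGroup M] [NormedSpace ℝ M] [FiniteDimensional ℝ M]
  {L' : AddSubgroup M} {C' E' : Set M}

omit [FiniteDimensional ℝ N] in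
/-- The generators of a fundamental domain are in the cone. -/
theorem mem_of_gen {A : Set N} {𝒢 : Set (N ≃ₗ[ℝ] N)} (h1 : (1 : N ≃ₗ[ℝ] N) ∈ 𝒢) {S : Finset N}
    (hS : A = {x | ∃ g ∈ 𝒢, ∃ y ∈ cone S, x = g y}) {a : N} (ha : a ∈ S) : a ∈ A := by
  rw [hS]
  exact ⟨1, h1, a, mem_cone_self ha, rfl⟩

theorem quotient_core (hN : IsConePair L C E) (hM : IsConePair L' C' E')
    {Γ : Type*} [Group Γ] (π : Γ →* (N ≃ₗ[ℝ] N)) (hπL : Pres (Set.range π) (L : Set N))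
    (hπC : Pres (Set.range π) C) (hπE : Pres (Set.range π) E) {G : Subgroup Γ} (hG : G.Normal)
    (hK : FinLifts (G ⊓ π.ker)) (hX : FD L (C ∩ E) (π '' G)) (H : Subgroup Γ)
    (hH : Finite H) {p : M →ₗ[ℝ] N} (hp : PullB L C E L' C' E' (π '' H) p)
    (𝒢' : Subgroup (M ≃ₗ[ℝ] M)) (h𝒢L : Pres (𝒢' : Set _) (L' : Set M))
    (h𝒢C : Pres (𝒢' : Set _) C') (h𝒢E : Pres (𝒢' : Set _) E')
    (hdesc : ∀ c ∈ G, (∀ h ∈ H, c * h = h * c) → ∃ g' ∈ 𝒢', ∀ y, p (g' y) = π c (p y)) :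
    FD L' (C' ∩ E') (𝒢' : Set (M ≃ₗ[ℝ] M)) := by
  classical
  have hft := Fintype.ofFinite H
  obtain ⟨ξ, y₀, Y, D⟩ := exists_cdata hN
  obtain ⟨ξ', y', Y', D'⟩ := exists_cdata hM
  have hP := hN.inter
  have hP' := hM.inter
  have hL1 : ∀ g, ∀ x ∈ L, π g x ∈ L := fun g x hx => hπL _ ⟨g, rfl⟩ x hx
  have hN1 : ∀ g, ∀ x ∈ C ∩ E, π g x ∈ C ∩ E := fun g x hx =>
    ⟨hπC _ ⟨g, rfl⟩ x hx.1, hπE _ ⟨g, rfl⟩ x hx.2⟩
  obtain ⟨S, hSL, hScov, -⟩ := hX
  have h1G : (1 : N ≃ₗ[ℝ] N) ∈ π '' G := ⟨1, G.one_mem, map_one π⟩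
  have hS : ∀ a ∈ S, a ∈ L ∧ a ∈ C ∩ E := fun a ha => ⟨hSL a ha, mem_of_gen h1G hScov ha⟩
  have hinvx : ∀ (g : Γ) (x : N), π g⁻¹ (π g x) = x := by
    intro g x
    have : π g⁻¹ (π g x) = (π g⁻¹ * π g) x := rfl
    rw [this, ← map_mul, inv_mul_cancel, map_one]
    rfl
  have hcovX : ∀ x, (∃ t : ℝ, 0 < t ∧ x - t • y₀ ∈ C ∩ E) → ∃ g ∈ G, π g x ∈ cone S := by
    rintro x ⟨t, ht, hx⟩
    have h1 : x ∈ C ∩ E := by
      have h2 := hP.2.1 _ hx _ (hP.2.2 t ht.le _ D.y_N)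
      rwa [sub_add_cancel] at h2
    rw [hScov] at h1
    obtain ⟨_, ⟨g, hg, rfl⟩, y, hy, rfl⟩ := h1
    exact ⟨g⁻¹, G.inv_mem hg, by rw [hinvx]; exact hy⟩
  obtain ⟨F₁, hF₁, hcov₁⟩ := cov π D hL1 hN1 hG hK S hS hcovX H hH
  obtain ⟨k, hk, hkL⟩ := hp.mult
  have hkr : (0 : ℝ) < k := by exact_mod_cast hk
  -- the averaging map
  have hfix : ∀ y, ∀ h ∈ H, π h (p y) = p y := fun y h hh =>
    (hp.range (p y)).1 ⟨y, rfl⟩ _ ⟨h, hh, rfl⟩
  obtain ⟨q, hq⟩ : ∃ q : N →ₗ[ℝ] M, ∀ x, p (q x) = ∑ h : H, π h x := by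
    have hex : ∀ x, ∃ y, p y = ∑ h : H, π h x := by
      intro x
      rw [hp.range]
      rintro _ ⟨h, hh, rfl⟩
      rw [map_sum]
      refine Fintype.sum_equiv (Equiv.mulLeft ⟨h, hh⟩) _ _ fun h' => ?_
      show π h (π h' x) = π (h * h') x
      rw [map_mul]
      rfl
    choose q hq using hex
    refine ⟨{ toFun := q, map_add' := fun x y => hp.inj ?_, map_smul' := fun t x => hp.inj ?_ },
      hq⟩
    · rw [map_add, hq, hq, hq, ← Finset.sum_add_distrib]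
      exact Finset.sum_congr rfl fun h _ => map_add _ _ _
    · rw [RingHom.id_apply, map_smul, hq, hq, Finset.smul_sum]
      exact Finset.sum_congr rfl fun h _ => map_smul _ _ _
  have hqp : ∀ y, q (p y) = (Fintype.card H : ℝ) • y := by
    intro y
    apply hp.inj
    rw [hq, map_smul]
    have : ∀ h : H, π h (p y) = p y := fun h => hfix y h h.2
    simp only [this]
    rw [Finset.sum_const, Finset.card_univ, ← Nat.cast_smul_eq_nsmul ℝ]
  have hcard : (0 : ℝ) < Fintype.card H := by exact_mod_cast Fintype.card_pos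
  have hqP : ∀ a, a ∈ L ∧ a ∈ C ∩ E → (k : ℝ) • q a ∈ L' ∧ (k : ℝ) • q a ∈ C' ∩ E' := by
    intro a ha
    refine ⟨hkL _ ?_, hP'.2.2 k hkr.le _ ?_⟩
    · rw [hq]
      exact L.sum_mem fun h _ => hL1 _ _ ha.1
    · have h1 : p (q a) ∈ C ∩ E := by
        rw [hq]
        exact Finset.sum_induction _ (· ∈ C ∩ E) (fun x y hx hy => hP.2.1 x hx y hy) hP.1
          fun h _ => hN1 _ _ ha.2
      exact ⟨(hp.mem_C _).2 h1.1, (hp.mem_E _).2 h1.2⟩
  have hscale : ∀ (T : Finset M) (y : M), ((k : ℝ) • q) (p y) ∈ cone T → y ∈ cone T := by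
    intro T y hy
    rw [LinearMap.smul_apply, hqp, smul_smul] at hy
    have h1 := cone_smul hy (t := ((k : ℝ) * Fintype.card H)⁻¹) (by positivity)
    rwa [smul_smul, inv_mul_cancel₀ (by positivity), one_smul] at h1
  -- interior points
  have hint : ∀ y, (∃ t : ℝ, 0 < t ∧ y - t • y' ∈ C' ∩ E') →
      ∃ t : ℝ, 0 < t ∧ p y - t • y₀ ∈ C ∩ E := by
    rintro y ⟨t, ht, hy⟩
    obtain ⟨K, hK, h1⟩ := D'.y_int (q y₀)
    have h2 : p (K • y' - q y₀) ∈ C ∩ E := ⟨(hp.mem_C _).1 h1.1, (hp.mem_E _).1 h1.2⟩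
    have h3 : p (q y₀) - y₀ ∈ C ∩ E := by
      rw [hq, ← Finset.add_sum_erase _ _ (Finset.mem_univ (1 : H))]
      have h4 : π (1 : H) y₀ = y₀ := by
        show π 1 y₀ = y₀
        rw [map_one]
        rfl
      rw [h4, add_sub_cancel_left]
      exact Finset.sum_induction _ (· ∈ C ∩ E) (fun x y hx hy => hP.2.1 x hx y hy) hP.1
        fun h _ => hN1 _ _ D.y_N
    have h5 : p (y - t • y') ∈ C ∩ E := ⟨(hp.mem_C _).1 hy.1, (hp.mem_E _).1 hy.2⟩
    refine ⟨t / K, by positivity, ?_⟩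
    have h6 := hP.2.1 _ h5 _ (hP.2.2 (t / K) (by positivity) _ (hP.2.1 _ h2 _ h3))
    have h7 : p (y - t • y') + (t / K) • (p (K • y' - q y₀) + (p (q y₀) - y₀)) =
        p y - (t / K) • y₀ := by
      rw [map_sub, map_sub, map_smul, map_smul, sub_add_sub_cancel, smul_sub, smul_smul,
        div_mul_cancel₀ _ hK.ne']
      abel
    rwa [h7] at h6
  refine fund_of_cov D' 𝒢' h𝒢L (fun g hg x hx => ⟨h𝒢C g hg x hx.1, h𝒢E g hg x hx.2⟩)
    (F := F₁.image ((k : ℝ) • q)) ?_ ?_ ?_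
  · intro a ha
    obtain ⟨b, hb, rfl⟩ := Finset.mem_image.1 ha
    exact hqP b (hF₁ b hb)
  · intro y hy
    obtain ⟨c, hc, hcH, hcF⟩ := hcov₁ (p y) (hint y hy) (hfix y)
    obtain ⟨g', hg', h1⟩ := hdesc c hc hcH
    refine ⟨g', hg', hscale _ _ ?_⟩
    rw [h1]
    exact cone_image _ hcF
  · intro x hx
    have h1 : p x ∈ C ∩ E := ⟨(hp.mem_C _).1 hx.1, (hp.mem_E _).1 hx.2⟩
    rw [hScov] at h1
    obtain ⟨_, ⟨g, hg, rfl⟩, y, hy, h2⟩ := h1
    refine ⟨(S.image (π g : N →ₗ[ℝ] N)).image ((k : ℝ) • q), ?_, ?_⟩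
    · intro a ha
      obtain ⟨b, hb, rfl⟩ := Finset.mem_image.1 ha
      obtain ⟨d, hd, rfl⟩ := Finset.mem_image.1 hb
      exact hqP _ ⟨hL1 g _ (hS d hd).1, hN1 g _ (hS d hd).2⟩
    · apply hscale
      rw [h2]
      exact cone_image _ (cone_image (π g : N →ₗ[ℝ] N) hy)

end Core

namespace Variety

theorem IsGood.inter {X : Variety} (h : X.IsGood) : IsCone (X.C ∩ X.E) := h.cones.inter

/-- The data of a good variety with a linear action. -/
theorem IsGood.rep {X : Variety} (h : X.IsGood) : ∃ ρ : X.G →* (X.N ≃ₗ[ℝ] X.N),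
    (∀ g x, ρ g x = X.act g x) ∧ Pres (Set.range ρ) (X.L : Set X.N) ∧ Pres (Set.range ρ) X.C ∧
    Pres (Set.range ρ) X.E ∧ FinLifts ρ.ker ∧ (X.ConeConj ↔ FD X.L (X.C ∩ X.E) (Set.range ρ)) := by
  obtain ⟨ρ, hρ⟩ := h.linear
  refine ⟨ρ, hρ, ?_, ?_, ?_, ?_, ?_⟩
  · rintro _ ⟨g, rfl⟩ x hx
    rw [hρ]
    exact (h.preserves g).1 x hx
  · rintro _ ⟨g, rfl⟩ x hx
    rw [hρ]
    exact (h.preserves g).2.1 x hx
  · rintro _ ⟨g, rfl⟩ x hx
    rw [hρ]
    exact (h.preserves g).2.2 x hx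
  · obtain ⟨A, hA, hA', hAK, T, hT, hTK⟩ := h.kernel
    have hker : ∀ g, g ∈ ρ.ker ↔ X.act g = id := by
      intro g
      rw [MonoidHom.mem_ker]
      constructor
      · intro h1
        funext x
        rw [← hρ, h1]
        rfl
      · intro h1
        ext x
        rw [hρ, h1]
        rfl
    exact lifts hA hA' (fun a ha => (hker a).2 (hAK a ha))
      ⟨T, hT, fun k hk => hTK k ((hker k).1 hk)⟩
  · refine (fd_iff fun f => ?_).symm
    constructor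
    · rintro ⟨g, rfl⟩
      exact ⟨ρ g, ⟨g, rfl⟩, fun x => hρ g x⟩
    · rintro ⟨_, ⟨g, rfl⟩, h1⟩
      exact ⟨g, funext fun x => (hρ g x).symm.trans (h1 x)⟩

/-- The cone conjecture passes to finite quotients. -/
theorem quotient {X Y : Variety} (hX : X.IsGood) (hY : Y.IsGood) {H : Subgroup X.G} (hH : Finite H)
    (hq : X.IsQuotient H Y) (h : X.ConeConj) : Y.ConeConj := by
  obtain ⟨p, hp, hdesc⟩ := hq
  obtain ⟨π, hπ, hπL, hπC, hπE, hK, hiff⟩ := hX.rep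
  obtain ⟨σ, hσ, hσL, hσC, hσE, -, hiff'⟩ := hY.rep
  have hn : (⊤ : Subgroup X.G).Normal := inferInstance
  have hK' : FinLifts ((⊤ : Subgroup X.G) ⊓ π.ker) := by
    rw [top_inf_eq]
    exact hK
  have h1 : FD X.L (X.C ∩ X.E) (π '' (⊤ : Subgroup X.G)) := by
    rw [Subgroup.coe_top, Set.image_univ]
    exact hiff.1 h
  obtain ⟨p', hp'⟩ := hp.lin
  have e : (p' : Y.N → X.N) = p := funext hp'
  have hP : PullB X.L X.C X.E Y.L Y.C Y.E (π '' H) p' := by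
    refine ⟨?_, ?_, ?_, ?_, ?_, ?_⟩
    · rw [e]
      exact hp.inj
    · intro x
      simp only [hp']
      rw [hp.range]
      constructor
      · rintro h2 _ ⟨g, hg, rfl⟩
        rw [hπ]
        exact h2 g hg
      · intro h2 g hg
        rw [← hπ]
        exact h2 _ ⟨g, hg, rfl⟩
    · intro y hy
      rw [hp']
      exact hp.int y hy
    · obtain ⟨k, hk, h2⟩ := hp.mult
      refine ⟨k, hk, fun y hy => h2 y ?_⟩
      rwa [hp'] at hy
    · intro y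
      rw [hp']
      exact hp.mem_C y
    · intro y
      rw [hp']
      exact hp.mem_E y
  have hr : (σ.range : Set (Y.N ≃ₗ[ℝ] Y.N)) = Set.range σ := MonoidHom.coe_range _
  have h2 := quotient_core hX.cones hY.cones π hπL hπC hπE hn hK' h1 H hH hP
    σ.range (by rw [hr]; exact hσL) (by rw [hr]; exact hσC) (by rw [hr]; exact hσE) (by
      intro c _ hc
      obtain ⟨g, hg⟩ := hdesc c hc
      refine ⟨σ g, ⟨g, rfl⟩, fun y => ?_⟩
      rw [hp', hp', hσ, hπ]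
      exact hg y)
  rw [hr] at h2
  exact hiff'.2 h2

/-- The cone conjecture passes to products. -/
theorem product {X : Variety} (hX : X.IsGood) {I : Type} [Fintype I] {S : I → Variety}
    (hS : ∀ i, (S i).IsGood) (hp : X.IsProduct S) (h : ∀ i, (S i).ConeConj) : X.ConeConj := by
  classical
  obtain ⟨e', ⟨e, hee⟩, heL', heP', heG'⟩ := hp
  obtain ⟨π, hπ, hπL, hπC, hπE, -, hiff⟩ := hX.rep
  have hrep := fun i => (hS i).rep
  choose σ hσ hσL hσC hσE _ hiffS using hrep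
  have heL : ∀ x, x ∈ X.L ↔ ∀ i, e x i ∈ (S i).L := by
    intro x
    rw [hee]
    exact heL' x
  have heP : ∀ x, x ∈ X.C ∩ X.E ↔ ∀ i, e x i ∈ (S i).C ∩ (S i).E := by
    intro x
    rw [hee]
    exact heP' x
  have heG : ∀ g : (i : I) → (S i).G, ∃ g' : X.G, ∀ x i, e (π g' x) i = σ i (g i) (e x i) := by
    intro g
    obtain ⟨g', hg'⟩ := heG' g
    refine ⟨g', fun x i => ?_⟩
    rw [hee, hee, hπ, hσ]
    exact hg' x i
  obtain ⟨ξ, y₀, Y, D⟩ := exists_cdata hX.cones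
  have hP := hX.inter
  have hFD : ∀ i, FD (S i).L ((S i).C ∩ (S i).E) (Set.range (σ i)) := fun i => (hiffS i).1 (h i)
  choose T hTL hTcov _ using hFD
  have h1 : ∀ i, (1 : (S i).N ≃ₗ[ℝ] (S i).N) ∈ Set.range (σ i) := fun i => ⟨1, map_one _⟩
  have hT : ∀ i, ∀ a ∈ T i, a ∈ (S i).C ∩ (S i).E := fun i a ha =>
    mem_of_gen (h1 i) (hTcov i) ha
  let f : (i : I) → (S i).N →ₗ[ℝ] X.N := fun i =>
    (e.symm : ((i : I) → (S i).N) →ₗ[ℝ] X.N) ∘ₗ LinearMap.single ℝ (fun i => (S i).N) i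
  have hfe : ∀ i a, e (f i a) = Pi.single i a := fun i a => e.apply_symm_apply _
  let F : Finset X.N := Finset.univ.biUnion fun i => (T i).image (f i)
  have hF : ∀ a ∈ F, a ∈ X.L ∧ a ∈ X.C ∩ X.E := by
    intro a ha
    obtain ⟨i, -, h2⟩ := Finset.mem_biUnion.1 ha
    obtain ⟨b, hb, rfl⟩ := Finset.mem_image.1 h2
    refine ⟨(heL _).2 fun j => ?_, (heP _).2 fun j => ?_⟩
    · rw [hfe]
      by_cases hij : j = i
      · subst hij
        rw [Pi.single_eq_same]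
        exact hTL _ b hb
      · rw [Pi.single_eq_of_ne hij]
        exact (S j).L.zero_mem
    · rw [hfe]
      by_cases hij : j = i
      · subst hij
        rw [Pi.single_eq_same]
        exact hT _ b hb
      · rw [Pi.single_eq_of_ne hij]
        exact (hS j).inter.1
  have hcov : ∀ x ∈ X.C ∩ X.E, ∃ g : X.G, π g x ∈ cone F := by
    intro x hx
    have h2 := (heP x).1 hx
    have h3 : ∀ i, ∃ g : (S i).G, σ i g (e x i) ∈ cone (T i) := by
      intro i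
      have h4 := h2 i
      rw [hTcov i] at h4
      obtain ⟨_, ⟨g, rfl⟩, y, hy, h5⟩ := h4
      refine ⟨g⁻¹, ?_⟩
      rw [h5]
      have h6 : σ i g⁻¹ (σ i g y) = (σ i g⁻¹ * σ i g) y := rfl
      rw [h6, ← map_mul, inv_mul_cancel, map_one]
      exact hy
    choose g hg using h3
    obtain ⟨g', hg'⟩ := heG g
    refine ⟨g', ?_⟩
    have h4 : π g' x = ∑ i, f i (σ i (g i) (e x i)) := by
      apply e.injective
      rw [map_sum]
      simp only [hfe]
      rw [Finset.univ_sum_single]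
      funext i
      exact hg' x i
    rw [h4]
    refine cone_sum _ _ fun i _ => ?_
    refine cone_mono ?_ (cone_image (f i) (hg i))
    exact Finset.subset_biUnion_of_mem (fun i => (T i).image (f i)) (Finset.mem_univ i)
  have hr : (π.range : Set (X.N ≃ₗ[ℝ] X.N)) = Set.range π := MonoidHom.coe_range _
  have h5 := fund_of_cov D π.range (by rw [hr]; exact hπL)
    (by rw [hr]; exact fun g hg x hx => ⟨hπC g hg x hx.1, hπE g hg x hx.2⟩)
    (F := F) hF (by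
      rintro x ⟨t, ht, hx⟩
      have h2 := hP.2.1 _ hx _ (hP.2.2 t ht.le _ D.y_N)
      rw [sub_add_cancel] at h2
      obtain ⟨g, hg⟩ := hcov x h2
      exact ⟨π g, ⟨g, rfl⟩, hg⟩) (by
      intro x hx
      obtain ⟨g, hg⟩ := hcov x hx
      refine ⟨F.image (π g⁻¹ : X.N →ₗ[ℝ] X.N), ?_, ?_⟩
      · intro a ha
        obtain ⟨b, hb, rfl⟩ := Finset.mem_image.1 ha
        exact ⟨hπL _ ⟨_, rfl⟩ _ (hF b hb).1, hπC _ ⟨_, rfl⟩ _ (hF b hb).2.1,
          hπE _ ⟨_, rfl⟩ _ (hF b hb).2.2⟩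
      · have h6 := cone_image (π g⁻¹ : X.N →ₗ[ℝ] X.N) hg
        have h7 : (π g⁻¹ : X.N →ₗ[ℝ] X.N) (π g x) = x := by
          show (π g⁻¹ * π g) x = x
          rw [← map_mul, inv_mul_cancel, map_one]
          rfl
        rwa [h7] at h6)
  rw [hr] at h5
  exact hiff.2 h5

/-- The cone conjecture for finite quotients of products. -/
theorem covered {V : Type} {D : V → Variety} (hD : ∀ X, (D X).IsGood) {Y : V} {F : Set V}
    (hY : IsCoveredBy D Y F) (hF : ∀ S ∈ F, (D S).ConeConj) : (D Y).ConeConj := by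
  obtain ⟨X, H, hH, hq, I, _, S, hS, hp⟩ := hY
  exact quotient (hD X) (hD Y) hH hq
    (product (hD X) (fun i => hD (S i)) hp fun i => hF _ (hS i))

end Variety

end Run7.h334.CQ
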